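import Pool.Agent.P8H67.IU.Stm

/-!
Package DES of the project IU: descent by Frobenius.
-/

set_option autoImplicit false

namespace Pool.Agent.P8H4.IU

open Polynomial Finset
open Pool.Agent.P8H67.IU

universe u

/-- one step of the descent -/
theorem step (p : ℕ) [hp : Fact p.Prime] (d B : ℕ) (hB : d + 1 ≤ B) (K : Type u)
    [Field K] [CharP K p]
    (H : ∀ (f g : K[X]), f = expand K p g → f.natDegree = d → ∀ Z : Finset K,
      (∀ z ∈ Z, f.eval z ∈ Z) → B ≤ Z.card → ∀ x ∈ Z, ∀ y ∈ Z, ∀ z ∈ Z, x ≠ y → x ≠ z → y ≠ z →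
      ∃ w : K, w ^ p = (x - y) / (x - z))
    (f g : K[X]) (hfg : f = expand K p g) (hfd : f.natDegree = d) (Z : Finset K)
    (hZ : ∀ z ∈ Z, f.eval z ∈ Z) (hZB : B ≤ Z.card) (x y z : K) (hx : x ∈ Z) (hy : y ∈ Z)
    (hz : z ∈ Z) (hxy : x ≠ y) (hxz : x ≠ z) (hyz : y ≠ z) :
    ∃ (f' g' : K[X]) (Z' : Finset K) (x' y' z' : K), f' = expand K p g' ∧ f'.natDegree = d ∧
      (∀ w ∈ Z', f'.eval w ∈ Z') ∧ B ≤ Z'.card ∧ x' ∈ Z' ∧ y' ∈ Z' ∧ z' ∈ Z' ∧ x' ≠ y' ∧
      x' ≠ z' ∧ y' ≠ z' ∧ ((x' - y') / (x' - z')) ^ p = (x - y) / (x - z) := by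
  classical
  have hp0 : p ≠ 0 := hp.1.ne_zero
  have hzx : z - x ≠ 0 := sub_ne_zero.2 hxz.symm
  obtain ⟨φ, hφ⟩ : ∃ φ : K → K, ∀ w, φ w = (w - x) / (z - x) := ⟨_, fun _ => rfl⟩
  have hφinj : Function.Injective φ := fun a b hab => by
    rw [hφ, hφ, div_left_inj' hzx] at hab
    exact sub_left_injective hab
  have hback : ∀ w, (z - x) * φ w + x = w := fun w => by
    rw [hφ, mul_div_cancel₀ _ hzx, sub_add_cancel]
  -- the roots
  have hroot : ∀ w ∈ Z, ∃ t : K, t ^ p = φ w := by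
    intro w hw
    by_cases h1 : w = x
    · exact ⟨0, by rw [zero_pow hp0, hφ, h1, sub_self, zero_div]⟩
    by_cases h2 : w = z
    · exact ⟨1, by rw [one_pow, hφ, h2, div_self hzx]⟩
    obtain ⟨t, ht⟩ := H f g hfg hfd Z hZ hZB x hx w hw z hz (Ne.symm h1) hxz h2
    refine ⟨t, ?_⟩
    rw [ht, hφ, ← neg_sub w x, ← neg_sub z x, neg_div_neg_eq]
  choose! ψ hψ using hroot
  have hψinj : Set.InjOn ψ Z := fun a ha b hb hab => by
    apply hφinj
    rw [← hψ a ha, ← hψ b hb, hab]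
  have hfrob : Function.Injective (frobenius K p) := frobenius_inj K p
  -- the conjugated polynomial
  obtain ⟨f₁, hf₁⟩ : ∃ f₁ : K[X], f₁ = C (z - x)⁻¹ * (f.comp (C (z - x) * X + C x) - C x) := ⟨_, rfl⟩
  have hf₁e : ∀ w, f₁.eval (φ w) = φ (f.eval w) := by
    intro w
    rw [hf₁, eval_mul, eval_C, eval_sub, eval_C, eval_comp, eval_add, eval_mul, eval_C, eval_X,
      eval_C, hback, hφ (f.eval w), div_eq_inv_mul]
  have hf₁d : f₁.natDegree = d := by
    rw [hf₁, natDegree_C_mul (inv_ne_zero hzx), natDegree_sub_C, natDegree_comp,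
      natDegree_linear hzx, mul_one, hfd]
  have hderf : derivative f = 0 := by
    rw [hfg, derivative_expand, CharP.cast_eq_zero, zero_mul, mul_zero]
  have hder₁ : derivative f₁ = 0 := by
    rw [hf₁, derivative_mul, derivative_C, zero_mul, zero_add, derivative_sub, derivative_C,
      derivative_comp, hderf, zero_comp, mul_zero, sub_zero, mul_zero]
  -- the interpolation polynomial
  obtain ⟨Z₀, hZ₀⟩ : ∃ Z₀ : Finset K, Z₀ = Z.image ψ := ⟨_, rfl⟩
  have hcard₀ : Z₀.card = Z.card := by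
    rw [hZ₀, Finset.card_image_of_injOn hψinj]
  obtain ⟨ρ, hρ⟩ : ∃ ρ : K → K, ∀ t, ρ t = ψ (f.eval ((z - x) * t ^ p + x)) := ⟨_, fun _ => rfl⟩
  have hρψ : ∀ w ∈ Z, ρ (ψ w) = ψ (f.eval w) := fun w hw => by
    rw [hρ, hψ w hw, hback]
  obtain ⟨h, hh⟩ : ∃ h : K[X], h = Lagrange.interpolate Z₀ id ρ := ⟨_, rfl⟩
  have hhe : ∀ w ∈ Z, h.eval (ψ w) = ψ (f.eval w) := fun w hw => by
    have h1 : ψ w ∈ Z₀ := by rw [hZ₀]; exact mem_image_of_mem _ hw
    have h2 := Lagrange.eval_interpolate_at_node (r := ρ) (v := id) (Set.injOn_id (Z₀ : Set K)) h1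
    rw [id_eq] at h2
    rw [hh, h2, hρψ w hw]
  have hhmap : h.map (frobenius K p) = f₁ := by
    refine Polynomial.eq_of_degrees_lt_of_eval_finset_eq (Z.image φ) ?_ ?_ ?_
    · rw [degree_map, Finset.card_image_of_injective _ hφinj, ← hcard₀, hh]
      exact Lagrange.degree_interpolate_lt _ (Set.injOn_id _)
    · rw [Finset.card_image_of_injective _ hφinj]
      refine lt_of_le_of_lt degree_le_natDegree ?_
      rw [hf₁d]
      exact_mod_cast (by omega : d < Z.card)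
    · intro t ht
      obtain ⟨w, hw, rfl⟩ := mem_image.1 ht
      rw [hf₁e]
      have h1 : φ w = frobenius K p (ψ w) := by rw [frobenius_def, hψ w hw]
      rw [h1, Polynomial.eval_map_apply, hhe w hw, frobenius_def, hψ _ (hZ w hw)]
  have hhd : h.natDegree = d := by
    rw [← hf₁d, ← hhmap, natDegree_map]
  have hhder : derivative h = 0 := by
    apply Polynomial.map_injective _ hfrob
    rw [← derivative_map, hhmap, hder₁, Polynomial.map_zero]
  refine ⟨h, contract p h, Z₀, ψ x, ψ y, ψ z, (expand_contract p hhder hp0).symm, hhd, ?_, ?_, ?_,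
    ?_, ?_, ?_, ?_, ?_, ?_⟩
  · intro t ht
    rw [hZ₀] at ht ⊢
    obtain ⟨w, hw, rfl⟩ := mem_image.1 ht
    rw [hhe w hw]
    exact mem_image_of_mem _ (hZ w hw)
  · rw [hcard₀]
    exact hZB
  · rw [hZ₀]; exact mem_image_of_mem _ hx
  · rw [hZ₀]; exact mem_image_of_mem _ hy
  · rw [hZ₀]; exact mem_image_of_mem _ hz
  · exact fun h1 => hxy (hψinj hx hy h1)
  · exact fun h1 => hxz (hψinj hx hz h1)
  · exact fun h1 => hyz (hψinj hy hz h1)
  · have h1 : frobenius K p ((ψ x - ψ y) / (ψ x - ψ z)) = (x - y) / (x - z) := by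
      rw [map_div₀, map_sub, map_sub, frobenius_def, frobenius_def, frobenius_def, hψ x hx, hψ y hy,
        hψ z hz, hφ, hφ, hφ, ← sub_div, ← sub_div, div_div_div_cancel_right₀ hzx]
      congr 1 <;> ring
    exact h1

theorem des : S_DES := by
  intro p hp d B hd hB k K _ _ _ _ _ Q H f g hfg hfd Z hZ hZB x hx y hy z hz hxy hxz hyz
  have hpow : ∀ (v : Q.Pl) (a : K), a ≠ 0 → ∀ n : ℕ, Q.ord v (a ^ n) = n * Q.ord v a := by
    intro v a ha n
    have h1 : Q.ord v 1 = 0 := by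
      have := Q.ord_alg v 1 one_ne_zero
      rwa [map_one] at this
    induction n with
    | zero => simpa using h1
    | succ n ih =>
      rw [pow_succ, Q.ord_mul v _ _ (pow_ne_zero n ha) ha, ih]
      push_cast
      ring
  have hdesc : ∀ (v : Q.Pl) (N : ℕ) (f g : K[X]) (Z : Finset K) (x y z : K), f = expand K p g →
      f.natDegree = d → (∀ z ∈ Z, f.eval z ∈ Z) → B ≤ Z.card → x ∈ Z → y ∈ Z → z ∈ Z →
      x ≠ y → x ≠ z → y ≠ z → (Q.ord v ((x - y) / (x - z))).natAbs = N →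
      Q.ord v ((x - y) / (x - z)) = 0 := by
    intro v N
    induction N using Nat.strong_induction_on with
    | _ N ih =>
      intro f g Z x y z hfg hfd hZ hZB hx hy hz hxy hxz hyz hN
      by_contra hne
      obtain ⟨f', g', Z', x', y', z', h1, h2, h3, h4, h5, h6, h7, h8, h9, h10, h11⟩ :=
        step p d B hB K H f g hfg hfd Z hZ hZB x y z hx hy hz hxy hxz hyz
      have hl0 : (x' - y') / (x' - z') ≠ 0 :=
        div_ne_zero (sub_ne_zero.2 h8) (sub_ne_zero.2 h9)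
      have h12 := hpow v _ hl0 p
      rw [h11] at h12
      have h13 : Q.ord v ((x' - y') / (x' - z')) ≠ 0 := by
        intro h0
        rw [h0, mul_zero] at h12
        exact hne h12
      apply h13
      refine ih _ ?_ f' g' Z' x' y' z' h1 h2 h3 h4 h5 h6 h7 h8 h9 h10 rfl
      rw [← hN, h12, Int.natAbs_mul, Int.natAbs_natCast]
      have h14 : 0 < (Q.ord v ((x' - y') / (x' - z'))).natAbs := Int.natAbs_pos.2 h13
      have h15 := hp.1.two_le
      nlinarith
  have hl : (x - y) / (x - z) ≠ 0 := div_ne_zero (sub_ne_zero.2 hxy) (sub_ne_zero.2 hxz)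
  exact Q.const _ hl fun v => le_of_eq
    (hdesc v _ f g Z x y z hfg hfd hZ hZB hx hy hz hxy hxz hyz rfl).symm

end Pool.Agent.P8H4.IU
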